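import Pool.Agent.SM5.All5

/-!
# The assembly map in degrees `-1` and `0`: rationally injective in degree `-1` for every group; no more
# than predicted, seen in the finite quotients `Q`, for groups with representations of centralisers

Let `G` be a group.  `Src G` is the colimit of the groups `K_{-1}(ℤ[H])` over the finite subgroups
`H` of `G`, the morphisms `H → H'` being the homomorphisms `a ↦ g a g⁻¹` with `g ∈ G`,
`g H g⁻¹ ≤ H'`; explicitly: the direct sum of the `K_{-1}(ℤ[H])` modulo the relations
`[H, x] = [H', (conjugation by g)_* x]`.  The inclusions `H ⊆ G` induce the homomorphism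
`asm G : Src G → K_{-1}(ℤ[G])`.  The Farrell–Jones conjecture predicts that `asm G ⊗ ℚ` is an
isomorphism, and that `K₀(ℤ[G]) ⊗ ℚ` is generated by the class of `ℤ[G]` and by the images of the classes
`c ⊗ e ∈ K₀(ℤ[H × ℤ])`, `H ≤ G` finite, `c` in its centraliser, `e ∈ K_{-1}(ℤ[H])`, under `H × ℤ → G`,
`(h, k) ↦ h c ^ k`.

For a homomorphism `f : G → ℤ` let `ddf f` be the homomorphism
`K₀(ℤ[G]) → K₀(ℤ[G][t,t⁻¹]) → K_{-1}(ℤ[G])` given by `g ↦ g t ^ (f g)`; it maps the class of `ℤ[G]` to `0` and
the image of `c ⊗ e` to `f(c) e`.  Let `Cap G` be the group of functions `Hom(G, ℤ) → K_{-1}(ℤ[G])` generated by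
the functions `f ↦ f(c) e`.  So the conjecture predicts that for each `z ∈ K₀(ℤ[G])` there is an `n > 0` such
that the function `f ↦ n (ddf f z)` is in `Cap G`, up to torsion.

* For every group `G` the kernel of `asm G` is a torsion group.
* Let `Q` be a finite group, `π : G → Q` a homomorphism, and let `G` have the property `LCX` for the order
  of `Q` (below).  Then for each `x ∈ K_{-1}(ℤ[G])` there are `n > 0` and `s ∈ Src G` such that `n x` and
  `asm G s` have the same image in `K_{-1}(ℤ[Q])`.
* Under the same hypothesis, for each `z ∈ K₀(ℤ[G])` and all `f₁, …, f_b : G → ℤ` there are `n > 0` and `v ∈ Cap G`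
  such that `n (ddf f_i z)` and `v(f_i)` have the same image in `K_{-1}(ℤ[Q])` for all `i`.
* If `G` has this property for the orders of all finite groups and only finitely many conjugacy classes of
  elements of finite order, then there is ONE pair `n`, `s` for `x` and all finite groups `Q` and all
  `π : G → Q`, and, if `G` is finitely generated, ONE pair `n`, `v` for `z`, all `Q`, `π` and all `f : G → ℤ`,
  up to torsion in `K_{-1}(ℤ[Q])`.
* The following groups have the property `LCX` for all numbers: all groups `G` such that for each element
  `g` of infinite order some homomorphism from `G` to a group `GL_k(F)`, `F` a field, maps no power `g ^ j`,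
  `j > 0`, to a unipotent matrix (for example `G ≤ GL_n(F)`, `F` of positive characteristic); if the groups
  `H^j(C; ℤ[1/M])`, `C ≤ G`, `M > 0`, `j > 2 m` odd, are torsion groups for some `m` (for example: the
  virtual cohomological dimension of `G` is finite), it is sufficient for `g` that some homomorphism
  `G → GL_k(ℤ[t₁, t₂, …])` maps it to an element of infinite order; all subgroups of `Aut(N)`, `N` finitely
  generated and residually torsion-free nilpotent, and of `Out(F_n)`, if `Aut(N)` or `Out(F_n)` has this
  property of the cohomology (known for `Out(F_n)` and, for example, for right-angled Artin groups `N`); all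
  subgroups of `GL_n(ℤ[t₁, t₂, …])`; all groups which act on a space with walls such that the elements of
  infinite order have unbounded orbits, for example properly on a CAT(0) cube complex of any dimension;
  all subgroups of the Higman–Thompson groups, for example of Thompson's group `V`.
* A weaker property `LCR` gives the conclusions for the finite groups `Q` of order prime to a number which
  depends on `x` and `z`; all linear groups over fields, and all groups of piecewise projective
  homeomorphisms of the line (finitely many pieces), have this property.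

The property `LCX N`: every finitely generated subgroup of `G` is contained in a subgroup `G₁` for which
there is an `m > 0` such that for each `g ∈ G₁` of infinite order, with `C` the centraliser of `g` in `G₁`:
some homomorphism `C → ℤ` is not `0` at `g`; or for some finitely generated subring `A` of a field such that
additive homomorphisms from `A` to rings `ℤ[1/M]`, `M` prime to `N`, detect the nonzero elements of `A`,
`C` has a homomorphism to some `GL_k(A)` which maps `g` to an element of infinite order, where `k = m` or the
groups `H^j(C; ℤ[1/M])`, `M > 0`, `j > 2 m` odd, are torsion groups.  In the property `LCR` the ring `A` does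
not depend on `g`, and there is no condition on additive homomorphisms.

Idea.  `x` is given by idempotent matrices `E` over `ℤ[G][t,t⁻¹]`.  For a homomorphism `q : G → C_p` the
two matrices `E₀`, `E₁` over `(ℤ/p^K)[G × C_p][t,t⁻¹]` obtained from `g ↦ (g, 1)` and `g ↦ (g, q g)` are
conjugate by `θ = E₁ E₀ + (1 - E₁)(1 - E₀)`, and the coefficients of `tr(E₀ θ⁻¹ t dθ/dt)` at the elements
`(g, q g)` with `q g ≠ 1` are invariants of the class in `K_{-1}`.  A weight of bounded degree on the words
in the elements of `G`, with the constant `v` at the class of `g`, gives an identity which shows that `v`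
times the invariant of `E` at `g` is the class of a rational number which depends neither on `K` nor on
`p`.  Such weights exist if a power of the Euler class of `g` vanishes; if the odd cohomology of `C` is
torsion above the degree `2 m`, then the `m`-th power vanishes as soon as some power does (Gysin sequence of
the central extension; here in the form of cochains `Y_k` with `δ Y_k = - i_c Y_{k+1}`).  For a finite group
the invariants are the local data which detect `K_{-1}(ℤ[Q]) ⊗ ℚ`.  In degree `0` the invariant of `ddf f z` at
an element `g` of finite order is additive in `f` on all `f` and depends only on the values of `f` on the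
centraliser of `g`; the functionals on `K_{-1}(ℤ[Q])^b` which vanish on the predicted tuples are, on each class
of cyclic subgroups, combinations of those which come from integral combinations of the `f_i` vanishing on
these centralisers.
-/

set_option autoImplicit false

universe u v

namespace Pool.Agent.Results.MP_e40716_gt.AssemblyInjectiveMinusOne

open Pool.Agent.Lib25 Pool.Agent.KM Pool.Agent.SM1 Pool.Agent.SM2 Pool.Agent.SM3 Pool.Agent.SM4
open Pool.Agent.SM5
open Pool.Agent.SUR (RTN)
open Pool.Agent.PWG (Walls)

/-- **Theorem.**
(1) For every group `G` the kernel of the map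
`asm G : colim_{H ≤ G finite} K_{-1}(ℤ[H]) → K_{-1}(ℤ[G])` induced by the inclusions is a torsion
group.
(2) Let `Q` be a finite group, `π : G → Q` a homomorphism, and let `G` have the property `LCX` for the order of
`Q`. For all `x ∈ K_{-1}(ℤ[G])` there are `n > 0` and `s` in the colimit with `π (n x) = π (asm s)` in
`K_{-1}(ℤ[Q])`; for all `z ∈ K₀(ℤ[G])` and `f₁, …, f_b : G → ℤ` there are `n > 0`, finite subgroups `H_j` of `G`,
`c_j` in the centraliser of `H_j` and `e_j ∈ K_{-1}(ℤ[H_j])` with `π (n (ddf f_i z)) = ∑_j f_i(c_j) π(e_j)` for
all `i`, where `ddf f : K₀(ℤ[G]) → K₀(ℤ[G][t,t⁻¹]) → K_{-1}(ℤ[G])`, `g ↦ g t ^ (f g)`.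
(3) Let `G` have the property `LCR`. For all `x` and `z` there is `M > 0` such that the conclusions of (2) hold
for all finite groups `Q` of order prime to `M` and all `π : G → Q`.
(4) Let `G` have the property `LCX` for all numbers `N > 0` and finitely many conjugacy classes of elements of
finite order. Then for all `x` there are ONE `n > 0` and ONE `s` such that for all finite `Q` and all `π : G → Q` the
element `π (n x - asm s)` is a torsion element; and for all `z`, if `G` is finitely generated, ONE `n > 0` and ONE
family `H_j`, `c_j`, `e_j` such that for all `Q`, `π` and all `f : G → ℤ` the element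
`π (n (ddf f z)) - ∑_j f(c_j) π(e_j)` is a torsion element.
(5) If `G` has the property `LCR` and finitely many conjugacy classes of elements of finite order, the
conclusions of (4) hold for the `Q` of order prime to a number `M > 0` which depends on `x`, `z`.
(6) Let `G` be a group and `m` a number such that for each `g ∈ G` of infinite order (a) some `G → GL_k(F)`,
`F` a field, maps no power `g ^ j`, `j > 0`, to a unipotent matrix, or (b) the groups `H^j(C; ℤ[1/M])`,
`C ≤ G`, `M > 0`, `j > 2 m` odd, are torsion groups and some `G → GL_k(ℤ[t_i, i ∈ σ])` maps `g` to an element of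
infinite order. Then `G` has the property `LCX` for all numbers.
(7) Let `Γ` be `Aut(N)`, `N` finitely generated and residually torsion-free nilpotent, or `Out(F)`, `F` a
finitely generated free group. If for some `m` the groups `H^j(C; ℤ[1/M])`, `C ≤ Γ`, `M > 0`, `j > 2 m` odd,
are torsion groups, all subgroups of `Γ` have the property `LCX` for all numbers.
(8) All subgroups of `GL_n(ℤ[t_i, i ∈ σ])`, `σ` any set, have the property `LCX` for all numbers.
(9) All groups which act on a space with walls such that the elements of infinite order have unbounded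
orbits have the property `LCX` for all numbers.
(10) All subgroups of the Higman–Thompson groups have the property `LCX` for all numbers.
(11) All linear groups over fields and all groups of piecewise projective homeomorphisms of the line have
the property `LCR`. -/
theorem result :
    (∀ (G : Type u) [Group G], InjRat G) ∧
    (∀ (G : Type u) (Q : Type v) [Group G] [Group Q] [Finite Q] (π : G →* Q),
      LCX (Nat.card Q) G → (∀ x, SeenNeg π x) ∧ ∀ z, SeenZero π z) ∧
    (∀ (G : Type u) [Group G], LCR G →
      (∀ x : KNegOne (MonoidAlgebra ℤ G), ∃ M : ℕ, 0 < M ∧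
        ∀ (Q : Type v) [Group Q] [Finite Q] (π : G →* Q), M.Coprime (Nat.card Q) → SeenNeg π x) ∧
      ∀ z : K0 (MonoidAlgebra ℤ G), ∃ M : ℕ, 0 < M ∧
        ∀ (Q : Type v) [Group Q] [Finite Q] (π : G →* Q), M.Coprime (Nat.card Q) → SeenZero π z) ∧
    (∀ (G : Type u) [Group G], FewTors G → (∀ N, 0 < N → LCX N G) →
      (∀ x : KNegOne (MonoidAlgebra ℤ G), OneNeg.{u, v} 1 x) ∧
      (Group.FG G → ∀ z : K0 (MonoidAlgebra ℤ G), OneZero.{u, v} 1 z)) ∧
    (∀ (G : Type u) [Group G], FewTors G → LCR G →
      (∀ x : KNegOne (MonoidAlgebra ℤ G), ∃ M : ℕ, 0 < M ∧ OneNeg.{u, v} M x) ∧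
      (Group.FG G → ∀ z : K0 (MonoidAlgebra ℤ G), ∃ M : ℕ, 0 < M ∧ OneZero.{u, v} M z)) ∧
    (∀ (N m : ℕ) (G : Type u) [Group G],
      (∀ g : G, ¬IsOfFinOrder g → NoUnip g ∨ (TorSub m G ∧ InfP g)) → LCX N G) ∧
    (∀ (N m : ℕ) (π : Type u) [Group π], Group.FG π → RTN π → TorSub m (MulAut π) →
      ∀ G : Subgroup (MulAut π), LCX N G) ∧
    (∀ (N m : ℕ) (α Γ : Type u) [Finite α] [Group Γ] (q : MulAut (FreeGroup α) →* Γ),
      Function.Surjective q → q.ker = (MulAut.conj (G := FreeGroup α)).range →
      TorSub m Γ → ∀ G : Subgroup Γ, LCX N G) ∧
    (∀ (N : ℕ) (σ : Type u) (n : ℕ) (G : Subgroup (GL (Fin n) (MvPolynomial σ ℤ))), LCX N G) ∧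
    (∀ (N : ℕ) (G : Type u) [Group G], Walls G → LCX N G) ∧
    (∀ (N : ℕ) (A : Type) [Finite A] [Nontrivial A] (G : Subgroup (Equiv.Perm (Stream' A))),
      (∀ g ∈ G, IsV g) → LCX N G) ∧
    (∀ (F : Type u) [Field F] (n : ℕ) (G : Subgroup (GL (Fin n) F)), LCR G) ∧
    (∀ G : Subgroup (ℝ ≃o ℝ), (∀ f ∈ G, IsPP f) → LCR G) :=
  ⟨fun G _ => n_inj G, fun _ _ _ _ _ π h => seen h π, fun _ _ h => seen_prime h,
    fun _ _ hT h => one hT h, fun _ _ hT h => one_prime hT h,
    fun N m G _ h => lcx_rep N m G h, fun N m π _ hf hR hT G => lcx_aut N m π hf hR hT G,
    fun N m α Γ _ _ q hq hker hT G => lcx_of_lct (lct_free N m α Γ q hq (Or.inr hker) hT G),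
    fun N σ n G => lcx_of_lct (lct_poly N σ n G), fun N G _ h => lcx_walls N G h,
    fun N A _ _ G h => lcx_v N A G h, fun _ _ _ G => lcr_linear G, fun G h => lcr_pp G h⟩

end Pool.Agent.Results.MP_e40716_gt.AssemblyInjectiveMinusOne
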