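import Pool.Agent.AUK.FJL.Lit

/-!
# Whitehead groups of arbitrary groups, and the rationalised assembly map for `t ≤ 1`

All injectivity statements are in dual form: a linear map of rational vector spaces is injective if and
only if every linear functional on its source extends to its target.

(1) For every group `G` the map `colim Wh(H) ⊗ ℚ → Wh(G) ⊗ ℚ`, over the finite subgroups `H` of `G`, is
injective (`WhInj G`).

(2) The source of the rationalised assembly map in degree `n` (for the family of finite subgroups) is the
sum over `t ≤ n` of the tensor products `H_{n-t}(Z_G(?); ℚ) ⊗ K_t(ℤ[?])` over the category of the finite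
subgroups of `G`, whose morphisms are the homomorphisms `H → K` that are conjugations by elements of
`G`.  The parts with `t < -1` vanish, and the part `t = 0` is `H_n(G; ℚ)` (`K_0(ℤ[H]) ⊗ ℚ = ℚ`).  The parts
`t = -1` and `t = 1` are taken literally: a linear functional on the sum of the three parts is a class
`f` in `H^n(G; ℚ)`, a family of homomorphisms `A H` from `K_{-1}(ℤ[H])` to `H^{n+1}(Z_G(H); ℚ)` and, for
`n ≥ 1`, a family of homomorphisms `B H` from `K_1(ℤ[H])` to `H^{n-1}(Z_G(H); ℚ)`, both compatible with the
conjugations (`SrcFun`).  The part `t = 2` vanishes, so for `n ≤ 2` this is the complete source.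

A linear functional on `K_n(ℤ[G]) ⊗ ℚ` is a family of classes `F r` in `H^{n+1}(GL_r(ℤ[G][t, t⁻¹]); ℚ)` which
is additive on block sums and vanishes on the subrings `ℤ[G][t]` and `ℤ[G][t⁻¹]` (`IsKn`).

The assembly map sends `c` in `H_n(G; ℚ)` to `[t] × c` (`ExtZ`), the tensor product of `c` in
`H_{n+1}(Z_G(H); ℚ)` and the class of an idempotent matrix `e` over `ℤ[H][t, t⁻¹]` to the image of `c` under the
homomorphism `z ↦ z E + 1 - E` from `Z_G(H)` to the general linear group of `ℤ[G][t, t⁻¹]`, `E` the image of
`e` (`ExtA`), and the tensor product of `c` in `H_{n-1}(Z_G(H); ℚ)` and the class of `X` in `GL_r(ℤ[H])` to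
`[t] × [X] × c` (`ExtB`).

For all `G` and `n` it is well defined: every functional on `K_n(ℤ[G]) ⊗ ℚ` restricts to a functional on the
source.  If `n ≤ 2`, or if for every finitely generated subgroup `G'` and every prime `p` the `p`-parts of
the orders of the torsion elements of `G'` are bounded (`LPBd`), then every functional `(f, A, B)` on the
source whose values at the finite cyclic subgroups `H ≠ 1` are locally detected extends to a functional on
`K_n(ℤ[G]) ⊗ ℚ`.

A class in `H^m(Γ; ℚ)` is detected (`Det`) if it vanishes on the homology classes on which all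
homomorphisms `H_m(Γ; ℤ) → ℤ` vanish; every class is detected if `m = 0` or if `H_m(Γ; ℤ)` is finitely
generated.  A class on `Z_G(H)` is locally detected (`LDet`) if its restrictions to the centralisers
`Z_{G'}(H)` are detected, for all finitely generated subgroups `G'` containing `H`.  So the kernel of the
assembly map is contained in the span of the elements `c ⊗ x` at the finite cyclic subgroups `H ≠ 1`
with `c` the image of an undetected class on some `Z_{G'}(H)`, and the map is injective if
`H_{n+1}(Z_{G'}(H); ℤ)` and `H_{n-1}(Z_{G'}(H); ℤ)` are finitely generated for all such `H` and `G'`.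
-/

set_option autoImplicit false

namespace Pool.Agent.Results.MP_e40716_gt.AssemblyUpToK1

open Pool.Agent.FJL.Lit

theorem result :
    (∀ (G : Type) [Group G], WhInj G) ∧
    ∀ (G : Type) [Group G] (n : ℕ),
      (∀ F : ∀ r : ℕ, Coh (n + 1) (GLr (LG G) r), IsKn F → ∃ s : SrcFun n G, Ext s F) ∧
      ((n ≤ 2 ∨ LPBd G) → ∀ s : SrcFun n G, s.IsDet →
        ∃ F : ∀ r : ℕ, Coh (n + 1) (GLr (LG G) r), IsKn F ∧ Ext s F) :=
  Pool.Agent.FJL.lit_main

end Pool.Agent.Results.MP_e40716_gt.AssemblyUpToK1
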