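import Pool.Agent.DET.XCOL
import Pool.Agent.SUR.CondF
import Pool.Agent.PWG.FIN
import Pool.Agent.RTO.Final

/-!
# Reidemeister torsions are homotopy invariants, and representations see only trivial units

Let `G` be a torsion free group. The Farrell–Jones conjecture predicts `Wh G = 0`: every invertible matrix
`X` over `ℤ[G]` has the same class in `K₁(ℤ[G])` as a trivial unit `± g`. In particular all determinants
`det ρ(X)`, for the finite-dimensional representations `ρ` of `G` over fields, are those of one trivial
unit. This is proved here for all torsion free linear groups, over any field, for all torsion free groups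
of automorphisms or outer automorphisms of finitely generated free groups, for all torsion free groups of
automorphisms of irreducible affine varieties with a fixed point, over a field of characteristic `0`, for all
torsion free groups which act metrically properly on a CAT(0) cube complex of any dimension, or on a space with walls
(`Walls`; the conjecture is not known for all of them).

A consequence is the homotopy invariance of the Reidemeister torsions for these groups (`TorsionInv`). Let `C` and
`C'` be finite based free chain complexes over `ℤ[G]` which are chain homotopy equivalent, for example the cellular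
chain complexes of the universal coverings of homotopy equivalent finite complexes with fundamental group `G`.
Then there is one element `g` of `G` such that for all representations `ρ` over a field, or over a reduced
commutative ring, for which `ρ(C)` and `ρ(C')` are contractible, the torsions of `ρ(C')` and `ρ(C)` differ by the
factor `± det ρ(g)`. For a general group, for example a finite cyclic one, this is false.

For a group `G` with elements of finite order the conjecture predicts that `K₁(ℤ[G])`, modulo torsion, is
generated by the elements of `G`, by the images of the groups `K₁(ℤ[H])`, `H ≤ G` finite, and by a part which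
comes from the groups `K₋₁(ℤ[H])` and has torsion images in `Wh Q` for all finite groups `Q`. It is proved
here that for all the groups above, torsion free or not, which are finitely generated and have only finitely
many conjugacy classes of elements of finite order (for instance `GL_n(ℤ)`, `Aut(F_n)`, `Out(F_n)`) all
determinants `det ρ(X) ^ N`, for one `N > 0`, are those of one unit `w` of `ℤ[G]`, which is a product of
elements of `G` and of units of the integral group rings of finite cyclic subgroups of `G`.

For every finitely generated group `G` the finite quotients of `G` decide: if the class of `X` has finite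
order in `Wh Q` for all finite quotients `Q` of `G`, then all determinants `det ρ(X)`, over all reduced
rings, are those of one trivial unit. The same holds for every group `G` and all `X` whose class in `Wh G` has
finite order. For finite groups `G` this is Wall's theorem on the torsion of `K₁(ℤ[G])`.

A consequence which is not formalised: if `G` is torsion free as above, the map from `Wh G` to
`Wh Q / SK₁(ℤ[Q])` is zero for each finite quotient `Q` of `G`.

Outline. The theorem on degree one (`Pool.Agent.SUR.surjW_D`) shows that a multiple of the image of the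
class of `X` in `Wh Q` comes from the finite subgroups of `G`, for each homomorphism from `G` to a finite
group `Q`; it is zero if `G` is torsion free. With finitely many conjugacy classes of elements of finite
order one can choose one multiple and one unit `w` for all `Q`, by the finite generation of the unit groups
(`Pool.Agent.SUR.uniform_cyc`), so one may assume that the class of `X` is torsion in all `Wh Q`. This
property passes to the restrictions of `X` to the subgroups of finite index (`Pool.Agent.DET.t_XRES`).
By Higman's theorem the determinant over `ℤ[G^ab]` is a trivial unit `e g`, and the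
same holds for the restrictions of `X` to subgroups of finite index. For a normal subgroup `M` of index a
power of `p` a congruence modulo `p` shows that the determinant over `ℤ[M^ab]` of the restriction of `X` is
`1` if the determinant over `ℤ[G^ab]` is `1` and `G/M` is abelian. By Clifford theory this gives, by
induction on the dimension, the determinants in all representations, over algebraically closed fields
of any characteristic, with quasi-elementary image. Solomon's induction theorem, applied to `ρ` and to the
one dimensional representation `det ρ`, gives all representations with finite image, and the general case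
follows by reduction modulo the maximal ideals of the ring generated by the matrix entries.
-/

set_option autoImplicit false

namespace Pool.Agent.Results.MP_e40716_gt.TrivialDeterminants

open Pool.Agent.WhK (Wh cls)
open Pool.Agent.SUR (ForGL ForAut ForOut ForDom ForAlg)
open Pool.Agent.PWG (Walls)
open Pool.Agent.RTO (Cx IsContraction IsNumbering tors)

/-- the matrix `ρ(x)` over `R`, for `x` in `ℤ[G]`: the sum of the matrices `c • ρ(g)`, `c` the coefficient of
`x` at `g` -/
noncomputable def ext {G R : Type} [Group G] [CommRing R] {n : ℕ} (ρ : G →* GL (Fin n) R)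
    (x : MonoidAlgebra ℤ G) : Matrix (Fin n) (Fin n) R :=
  Matrix.of fun a b => (MonoidAlgebra.coeff x).sum fun g c => (c : R) * ρ g a b

/-- the matrix `ρ(X)` over `R` with the `n × n` blocks `ρ(X i j)` -/
noncomputable def blocks {G R I J : Type} [Group G] [CommRing R] {n : ℕ} (ρ : G →* GL (Fin n) R)
    (X : Matrix I J (MonoidAlgebra ℤ G)) : Matrix (I × Fin n) (J × Fin n) R :=
  Matrix.of fun p q => ext ρ (X p.1 q.1) p.2 q.2

/-- there are one sign `e` and one `g ∈ G` such that `det ρ(X) = e ^ n det ρ(g)`, which is `det ρ(e g)`, for
all `n`, all reduced commutative rings `R` and all homomorphisms `ρ : G → GL_n(R)` -/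
def TrivialDet {G : Type} [Group G] {m : ℕ}
    (X : (Matrix (Fin m) (Fin m) (MonoidAlgebra ℤ G))ˣ) : Prop :=
  ∃ (e : ℤˣ) (g : G), ∀ (R : Type) [CommRing R] [IsReduced R] (n : ℕ) (ρ : G →* GL (Fin n) R),
    (blocks ρ X.val).det = ((e : ℤ) : R) ^ n * (ρ g).val.det

/-- `TrivialDet X` for all invertible matrices `X` over `ℤ[G]` -/
def TrivialDets (G : Type) [Group G] : Prop :=
  ∀ (m : ℕ) (X : (Matrix (Fin m) (Fin m) (MonoidAlgebra ℤ G))ˣ), TrivialDet X

/-- the homotopy invariance of the torsions: for chain homotopy equivalent finite based free chain complexes `C`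
and `C'` over `ℤ[G]` there is one `g ∈ G` such that for all `n`, all reduced commutative rings `R`, all
homomorphisms `ρ : G → GL_n(R)` and all contractions `s` of `ρ(C)` and `s'` of `ρ(C')` the torsion of `ρ(C')` is
`± det ρ(g)` times the torsion of `ρ(C)`, for all numberings `E`, `E'` of the basis elements of odd and even
degree. The numberings influence only the sign, and they exist for all contractible `ρ(C)`, `ρ(C')`, `R` not zero:
there are as many basis elements of odd degree as of even degree. -/
def TorsionInv (G : Type) [Group G] : Prop :=
  ∀ (I J : Type) [Fintype I] [Fintype J] [DecidableEq I] [DecidableEq J]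
    (C : Cx (MonoidAlgebra ℤ G) I) (C' : Cx (MonoidAlgebra ℤ G) J), C.Equivalent C' →
    ∃ g : G, ∀ (R O P : Type) [CommRing R] [IsReduced R] [Fintype O] [DecidableEq O] [Fintype P]
      [DecidableEq P] (n : ℕ) (ρ : G →* GL (Fin n) R) (E : O ⊕ O ≃ I × Fin n)
      (E' : P ⊕ P ≃ J × Fin n) (s : Matrix (I × Fin n) (I × Fin n) R)
      (s' : Matrix (J × Fin n) (J × Fin n) R),
      IsNumbering (fun i => C.deg i.1) E → IsNumbering (fun j => C'.deg j.1) E' →
      IsContraction (fun i => C.deg i.1) (blocks ρ C.d) s →
      IsContraction (fun j => C'.deg j.1) (blocks ρ C'.d) s' →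
      ∃ ε : ℤˣ, tors E' (blocks ρ C'.d) s' =
        ((ε : ℤ) : R) * (ρ g).val.det * tors E (blocks ρ C.d) s

/-- the group of the units of `ℤ[G]` generated by the elements of `G` and by the units of the rings `ℤ[C]`, `C`
a finite cyclic subgroup of `G` -/
noncomputable def finUnits (G : Type) [Group G] : Subgroup (MonoidAlgebra ℤ G)ˣ :=
  Subgroup.closure {w | (∃ g : G, w.val = MonoidAlgebra.single g 1) ∨
    ∃ (C : Subgroup G) (_ : Finite C) (_ : IsCyclic C) (v : (MonoidAlgebra ℤ C)ˣ),
      w.val = MonoidAlgebra.mapDomain C.subtype v.val}

/-- for each invertible matrix `X` over `ℤ[G]` there are `N > 0` and one unit `w` of `ℤ[G]`, a product of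
elements of `G` and of units of the rings `ℤ[C]`, `C` finite cyclic subgroups of `G`, such that
`det ρ(X) ^ N = det ρ(w)` for all `n`, all reduced commutative rings `R` and all homomorphisms
`ρ : G → GL_n(R)` -/
def UnitDets (G : Type) [Group G] : Prop :=
  ∀ (m : ℕ) (X : (Matrix (Fin m) (Fin m) (MonoidAlgebra ℤ G))ˣ),
    ∃ N : ℕ, 0 < N ∧ ∃ w ∈ finUnits G, ∀ (R : Type) [CommRing R] [IsReduced R] (n : ℕ)
      (ρ : G →* GL (Fin n) R), (blocks ρ X.val).det ^ N = (ext ρ w.val).det

/-- `TrivialDets G` and `TorsionInv G` if `G` is torsion free, and `UnitDets G` if `G` is finitely generated and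
its elements of finite order are in finitely many conjugacy classes -/
def Dets (G : Type) [Group G] : Prop :=
  ((∀ g : G, IsOfFinOrder g → g = 1) → TrivialDets G ∧ TorsionInv G) ∧
  (Group.FG G → {K : ConjClasses G | ∃ g : G, IsOfFinOrder g ∧ ConjClasses.mk g = K}.Finite →
    UnitDets G)

theorem ext_eq {G R : Type} [Group G] [CommRing R] {n : ℕ} (ρ : G →* GL (Fin n) R)
    (x : MonoidAlgebra ℤ G) : ext ρ x = Pool.Agent.DET.rh (Pool.Agent.DET.FINR.toM ρ) x := by
  refine Matrix.ext fun a b => ?_
  rw [Pool.Agent.DET.FINR.rh_apply]
  rfl

theorem blocks_eq {G R I J : Type} [Group G] [CommRing R] {n : ℕ} (ρ : G →* GL (Fin n) R)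
    (X : Matrix I J (MonoidAlgebra ℤ G)) :
    blocks ρ X = Pool.Agent.RTO.rblk (Pool.Agent.DET.FINR.toM ρ) X := by
  refine Matrix.ext fun p q => ?_
  show ext ρ (X p.1 q.1) p.2 q.2 = _
  rw [ext_eq]
  rfl

theorem torsionInv {G : Type} [Group G] (h : TrivialDets G) : TorsionInv G := by
  intro I J _ _ _ _ C C' hC
  obtain ⟨m, X, hX⟩ := Pool.Agent.RTO.exists_matrix C C' hC
  obtain ⟨e, g, hg⟩ := h m X
  refine ⟨g, ?_⟩
  intro R O P _ _ _ _ _ _ n ρ E E' s s' h1 h2 h3 h4
  rw [blocks_eq] at h3 h4
  rw [blocks_eq, blocks_eq]
  obtain ⟨ε, hε⟩ := hX R (Fin n) O P (Pool.Agent.DET.FINR.toM ρ) E E' s s' h1 h2 h3 h4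
  have h5 := hg R n ρ
  rw [blocks_eq] at h5
  refine ⟨ε * e ^ n, ?_⟩
  rw [hε, h5]
  push_cast
  ring

theorem finUnits_le (G : Type) [Group G] : Pool.Agent.DET.finUnits G ≤ finUnits G := by
  refine Subgroup.closure_mono ?_
  rintro w (⟨g, rfl⟩ | ⟨C, h1, h2, v, rfl⟩)
  · exact Or.inl ⟨g, rfl⟩
  · exact Or.inr ⟨C, h1, h2, v, rfl⟩

theorem unitDets {G : Type} [Group G] (hG : Pool.Agent.SUR.SurjW G) (hfg : Group.FG G)
    (hc : {K : ConjClasses G | ∃ g : G, IsOfFinOrder g ∧ ConjClasses.mk g = K}.Finite) :
    UnitDets G := by
  intro m X
  obtain ⟨N, hN, w, hw, h⟩ := Pool.Agent.DET.det_fin G hfg hG hc m X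
  refine ⟨N, hN, w, finUnits_le G hw, fun R _ _ n ρ => ?_⟩
  rw [ext_eq]
  exact h R n ρ

/-- **Theorem.**
(1) `Dets G` for all subgroups `G` of: `GL_d K`, `K` any field; the automorphism group
of `N`, `N` any finitely generated residually torsion-free nilpotent group; the outer automorphism group of
`N`, `N` any finitely generated free group; the group of the automorphisms of `B` which preserve `ε`, where
`ε : B → K` is an augmentation of an algebra of finite type over a field `K` of characteristic `0` and `B` is
a commutative domain or the powers of the kernel of `ε` have the intersection `0`.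
(2) `Dets G` for all groups `G` with the property `Walls`.
(3) `TrivialDet X` for all groups `G` and all invertible matrices `X` over `ℤ[G]` whose class in `Wh G` has
finite order.
(4) `TrivialDet X` for all finitely generated groups `G` and all invertible matrices `X` over `ℤ[G]` such that
the image of the class of `X` in `Wh Q` has finite order for all homomorphisms from `G` to finite groups `Q`. -/
theorem result :
    (ForGL.{0} Dets ∧ ForAut.{0} Dets ∧ ForOut.{0} Dets ∧ ForDom.{0} Dets ∧ ForAlg.{0} Dets) ∧
    (∀ (G : Type) [Group G], Walls G → Dets G) ∧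
    (∀ (G : Type) [Group G] (m : ℕ) (X : (Matrix (Fin m) (Fin m) (MonoidAlgebra ℤ G))ˣ),
      (∃ k : ℕ, 0 < k ∧ k • Wh.mk (cls X) = 0) → TrivialDet X) ∧
    ∀ (G : Type) [Group G], Group.FG G →
      ∀ (m : ℕ) (X : (Matrix (Fin m) (Fin m) (MonoidAlgebra ℤ G))ˣ),
        (∀ (Q : Type) [Group Q] [Finite Q] (π : G →* Q),
          ∃ k : ℕ, 0 < k ∧ k • Wh.map π (Wh.mk (cls X)) = 0) → TrivialDet X := by
  have key : ∀ (G : Type) [Group G], Pool.Agent.SUR.LocED G → Dets G := by
    intro G _ hG
    refine ⟨fun hT => ?_, fun hfg hc => unitDets (Pool.Agent.SUR.surjW_D G hG) hfg hc⟩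
    have h1 : TrivialDets G := fun m X => Pool.Agent.DET.det_locED G
      (Pool.Agent.DET.finTors_of_torsionFree G hT) hG m X
    exact ⟨h1, torsionInv h1⟩
  exact ⟨⟨fun F _ n G => key G (Pool.Agent.SUR.locED_of_locE G
        (Pool.Agent.SUR.locE_of_locCentEul G (Pool.Agent.SUR.locCentEul_linear F n G))),
      fun N _ h1 h2 G => key G
        (Pool.Agent.SUR.locED_of_locE G (Pool.Agent.SUR.locE_aut N h1 h2 G)),
      fun α _ Q _ q hq hker G => key G
        (Pool.Agent.SUR.locED_of_locE G (Pool.Agent.SUR.locE_out α Q q hq hker G)),
      fun K B _ _ _ _ _ ε hft G hG => key G (Pool.Agent.SUR.locED_alg K B ε hft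
        (Pool.Agent.SUR.t_VDOM K B ε hft) G hG),
      fun K B _ _ _ _ ε hft h G hG => key G (Pool.Agent.SUR.locED_alg K B ε hft h G hG)⟩,
    fun G _ hW => key G (Pool.Agent.PWG.locED_of_walls G hW),
    fun G _ m X ⟨k, hk, h⟩ => Pool.Agent.DET.det_order G m X k hk h,
    fun G _ hfg m X h => Pool.Agent.DET.det_TX G hfg m X (Pool.Agent.DET.XTOR.tx_of_wh h)⟩

end Pool.Agent.Results.MP_e40716_gt.TrivialDeterminants
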